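import Pool.Agent.Helper5.GB.St

/-! # Project GB: module Emb -/

set_option autoImplicit false

open Set Filter Topology

noncomputable section

namespace Pool.Agent.Helper86.GB

open Pool.Agent.Helper5.GB

private theorem pc {I : Set ℝ} (hI : I.OrdConnected) {A : Set ℝ} (hA : A.OrdConnected) :
    IsPreconnected {t : I | (t : ℝ) ∈ A} := by
  rw [← Topology.IsInducing.subtypeVal.isPreconnected_image]
  have : ((fun t : I => (t : ℝ)) '' {t : I | (t : ℝ) ∈ A}) = I ∩ A := by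
    ext x
    constructor
    · rintro ⟨t, ht, rfl⟩
      exact ⟨t.2, ht⟩
    · rintro ⟨h1, h2⟩
      exact ⟨⟨x, h1⟩, h2, rfl⟩
  rw [this]
  exact (hI.inter hA).isPreconnected

private theorem hit {I : Set ℝ} (hI : I.OrdConnected) {A : Set ℝ} (hA : A.OrdConnected) {f : I → ℝ}
    (hf : Continuous f) {u v : I} (hu : (u : ℝ) ∈ A) (hv : (v : ℝ) ∈ A) {c : ℝ} (h1 : f u ≤ c)
    (h2 : c ≤ f v) : ∃ w : I, (w : ℝ) ∈ A ∧ f w = c := by
  obtain ⟨w, hw, hc⟩ := (pc hI hA).intermediate_value (a := u) (b := v) hu hv hf.continuousOn ⟨h1, h2⟩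
  exact ⟨w, hw, hc⟩

private theorem bdd {I : Set ℝ} (hI : I.OrdConnected) {f : I → ℝ} (hf : Continuous f) (a b : I) :
    ∃ B : ℝ, ∀ t : I, (a : ℝ) ≤ t → (t : ℝ) ≤ b → |f t| ≤ B := by
  have hc : IsCompact {t : I | (t : ℝ) ∈ Icc (a : ℝ) b} := by
    rw [Topology.IsInducing.subtypeVal.isCompact_iff]
    have : ((fun t : I => (t : ℝ)) '' {t : I | (t : ℝ) ∈ Icc (a : ℝ) b}) = Icc (a : ℝ) b := by
      ext x
      constructor
      · rintro ⟨t, ht, rfl⟩
        exact ht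
      · intro hx
        exact ⟨⟨x, hI.out a.2 b.2 hx⟩, hx, rfl⟩
    rw [this]
    exact isCompact_Icc
  obtain ⟨B, hB⟩ := hc.exists_bound_of_continuousOn hf.continuousOn
  exact ⟨B, fun t h1 h2 => by simpa [Real.norm_eq_abs] using hB t ⟨h1, h2⟩⟩

private theorem core (hLin : StLin) (S : Set (ℝ × ℝ)) (p1 p2 : ℝ × ℝ) (m1 : p1 ∈ S) (m2 : p2 ∈ S)
    (e1 : p1.1 = 1) (e2 : p2.1 = -1) (u1 : ∀ q ∈ S, q.1 = 1 → q = p1) (u2 : ∀ q ∈ S, q.1 = -1 → q = p2)
    (hx : ∀ x : ℝ, ∃ q ∈ S, q.1 = x) (hc : ∀ N : ℝ, IsCompact (S ∩ {q | |q.1| ≤ N})) (I : Set ℝ)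
    (hI : I.OrdConnected) (φ : I ≃ₜ S) (hlt : (φ.symm ⟨p2, m2⟩ : ℝ) < φ.symm ⟨p1, m1⟩) :
    ∃ e : ℝ ≃ₜ S, (e 0 : ℝ × ℝ) = p2 ∧ (e 1 : ℝ × ℝ) = p1 ∧ (∀ t, (e t : ℝ × ℝ).1 < -1 ↔ t < 0) ∧
      (∀ t, 1 < (e t : ℝ × ℝ).1 ↔ 1 < t) ∧ Tendsto (fun t => (e t : ℝ × ℝ).1) atTop atTop ∧
      Tendsto (fun t => (e t : ℝ × ℝ).1) atBot atBot := by
  obtain ⟨t1, ht1⟩ : ∃ t : I, t = φ.symm ⟨p1, m1⟩ := ⟨_, rfl⟩
  obtain ⟨t2, ht2⟩ : ∃ t : I, t = φ.symm ⟨p2, m2⟩ := ⟨_, rfl⟩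
  rw [← ht1, ← ht2] at hlt
  have φ1 : φ t1 = ⟨p1, m1⟩ := by rw [ht1, Homeomorph.apply_symm_apply]
  have φ2 : φ t2 = ⟨p2, m2⟩ := by rw [ht2, Homeomorph.apply_symm_apply]
  set f : I → ℝ := fun t => (φ t : ℝ × ℝ).1 with hf
  have fc : Continuous f := continuous_fst.comp (continuous_subtype_val.comp φ.continuous)
  have f1 : f t1 = 1 := by simp only [hf, φ1]; exact e1
  have f2 : f t2 = -1 := by simp only [hf, φ2]; exact e2
  have g1 : ∀ t, f t = 1 → t = t1 := by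
    intro t ht
    have h := u1 _ (φ t).2 ht
    have h' : φ t = φ t1 := by rw [φ1]; exact Subtype.ext h
    exact φ.injective h'
  have g2 : ∀ t, f t = -1 → t = t2 := by
    intro t ht
    have h := u2 _ (φ t).2 ht
    have h' : φ t = φ t2 := by rw [φ2]; exact Subtype.ext h
    exact φ.injective h'
  have fs : ∀ x : ℝ, ∃ t : I, f t = x := by
    intro x
    obtain ⟨q, hq, hqx⟩ := hx x
    refine ⟨φ.symm ⟨q, hq⟩, ?_⟩
    simp only [hf, Homeomorph.apply_symm_apply]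
    exact hqx
  -- the four half lines
  have A : ∀ t : I, (t : ℝ) < t1 → f t < 1 := by
    intro t ht
    by_contra hn
    obtain ⟨w, hw, hw1⟩ := hit hI (ordConnected_Iio (a := (t1 : ℝ))) fc (u := t2) (v := t) hlt ht
      (c := 1) (by rw [f2]; norm_num) (not_lt.1 hn)
    rw [g1 w hw1] at hw
    exact lt_irrefl _ (mem_Iio.1 hw)
  have B : ∀ t : I, (t1 : ℝ) < t → 1 < f t := by
    intro t ht
    by_contra hn
    obtain ⟨u, hu⟩ := fs 2
    have hu1 : (t1 : ℝ) < u := by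
      rcases lt_trichotomy (u : ℝ) t1 with h | h | h
      · have := A u h; linarith
      · have : u = t1 := Subtype.ext h
        rw [this, f1] at hu; norm_num at hu
      · exact h
    obtain ⟨w, hw, hw1⟩ := hit hI (ordConnected_Ioi (a := (t1 : ℝ))) fc (u := t) (v := u) ht hu1
      (c := 1) (not_lt.1 hn) (by rw [hu]; norm_num)
    rw [g1 w hw1] at hw
    exact lt_irrefl _ (mem_Ioi.1 hw)
  have C : ∀ t : I, (t2 : ℝ) < t → -1 < f t := by
    intro t ht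
    by_contra hn
    obtain ⟨w, hw, hw1⟩ := hit hI (ordConnected_Ioi (a := (t2 : ℝ))) fc (u := t) (v := t1) ht hlt
      (c := -1) (not_lt.1 hn) (by rw [f1]; norm_num)
    rw [g2 w hw1] at hw
    exact lt_irrefl _ (mem_Ioi.1 hw)
  have D : ∀ t : I, (t : ℝ) < t2 → f t < -1 := by
    intro t ht
    by_contra hn
    obtain ⟨u, hu⟩ := fs (-2)
    have hu1 : (u : ℝ) < t2 := by
      rcases lt_trichotomy (u : ℝ) t2 with h | h | h
      · exact h
      · have : u = t2 := Subtype.ext h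
        rw [this, f2] at hu; norm_num at hu
      · have := C u h; linarith
    obtain ⟨w, hw, hw1⟩ := hit hI (ordConnected_Iio (a := (t2 : ℝ))) fc (u := u) (v := t) hu1 ht
      (c := -1) (by rw [hu]; norm_num) (not_lt.1 hn)
    rw [g2 w hw1] at hw
    exact lt_irrefl _ (mem_Iio.1 hw)
  have B' : ∀ t : I, 1 < f t ↔ (t1 : ℝ) < t := by
    intro t
    refine ⟨fun h => ?_, B t⟩
    rcases lt_trichotomy (t : ℝ) t1 with h' | h' | h'
    · have := A t h'; linarith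
    · rw [Subtype.ext h', f1] at h; exact absurd h (lt_irrefl _)
    · exact h'
  have D' : ∀ t : I, f t < -1 ↔ (t : ℝ) < t2 := by
    intro t
    refine ⟨fun h => ?_, D t⟩
    rcases lt_trichotomy (t : ℝ) t2 with h' | h' | h'
    · exact h'
    · rw [Subtype.ext h', f2] at h; exact absurd h (lt_irrefl _)
    · have := C t h'; linarith
  -- no largest, no least element
  have hmax : ∀ r : I, ∃ r' : I, (r : ℝ) < r' := by
    intro r
    by_contra hn
    push Not at hn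
    obtain ⟨K, hK⟩ := bdd hI fc t1 r
    obtain ⟨u, hu⟩ := fs (|K| + 2)
    have h1 : (t1 : ℝ) < u := (B' u).1 (by rw [hu]; have := abs_nonneg K; linarith)
    have h2 := hK u h1.le (hn u)
    rw [hu] at h2
    have h3 : |K| + 2 ≤ K := (le_abs_self _).trans h2
    have := le_abs_self K
    linarith
  have hmin : ∀ r : I, ∃ r' : I, (r' : ℝ) < r := by
    intro r
    by_contra hn
    push Not at hn
    obtain ⟨K, hK⟩ := bdd hI fc r t2
    obtain ⟨u, hu⟩ := fs (-(|K| + 2))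
    have h1 : (u : ℝ) < t2 := (D' u).1 (by rw [hu]; have := abs_nonneg K; linarith)
    have h2 := hK u (hn u) h1.le
    rw [hu, abs_neg] at h2
    have h3 : |K| + 2 ≤ K := (le_abs_self _).trans h2
    have := le_abs_self K
    linarith
  have hopen : IsOpen I := by
    rw [isOpen_iff_mem_nhds]
    intro x hxI
    obtain ⟨a, ha⟩ := hmin ⟨x, hxI⟩
    obtain ⟨b, hb⟩ := hmax ⟨x, hxI⟩
    exact mem_of_superset (Icc_mem_nhds ha hb) (hI.out a.2 b.2)
  obtain ⟨e', hmono, h0, h1⟩ := hLin I t2 t1 hI hopen t2.2 t1.2 hlt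
  have h0' : e' 0 = t2 := h0
  have h1' : e' 1 = t1 := h1
  set e : ℝ ≃ₜ S := e'.trans φ with he
  have hef : ∀ t, (e t : ℝ × ℝ).1 = f (e' t) := fun t => rfl
  have k1 : ∀ t, (e t : ℝ × ℝ).1 < -1 ↔ t < 0 := by
    intro t
    rw [hef, D', ← h0']
    exact hmono.lt_iff_lt
  have k2 : ∀ t, 1 < (e t : ℝ × ℝ).1 ↔ 1 < t := by
    intro t
    rw [hef, B', ← h1']
    exact hmono.lt_iff_lt
  have hbd : ∀ N : ℝ, ∃ T : ℝ, ∀ t, |(e t : ℝ × ℝ).1| ≤ N → |t| ≤ T := by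
    intro N
    have hcN : IsCompact {s : S | |(s : ℝ × ℝ).1| ≤ N} := by
      rw [Topology.IsInducing.subtypeVal.isCompact_iff]
      have : ((fun s : S => (s : ℝ × ℝ)) '' {s : S | |(s : ℝ × ℝ).1| ≤ N}) = S ∩ {q | |q.1| ≤ N} := by
        ext x
        constructor
        · rintro ⟨t, ht, rfl⟩
          exact ⟨t.2, ht⟩
        · rintro ⟨ha, hb⟩
          exact ⟨⟨x, ha⟩, hb, rfl⟩
      rw [this]
      exact hc N
    have h2 := (e.isCompact_preimage).2 hcN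
    obtain ⟨T, hT⟩ := h2.isBounded.exists_norm_le
    exact ⟨T, fun t ht => by simpa [Real.norm_eq_abs] using hT t ht⟩
  refine ⟨e, ?_, ?_, k1, k2, ?_, ?_⟩
  · show (φ (e' 0) : ℝ × ℝ) = p2
    rw [h0', φ2]
  · show (φ (e' 1) : ℝ × ℝ) = p1
    rw [h1', φ1]
  · rw [tendsto_atTop]
    intro N
    obtain ⟨T, hT⟩ := hbd (max N 1)
    filter_upwards [eventually_gt_atTop (max T 1)] with t ht
    have a1 : 1 < (e t : ℝ × ℝ).1 := (k2 t).2 ((le_max_right _ _).trans_lt ht)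
    by_contra hn
    push Not at hn
    have a2 : |(e t : ℝ × ℝ).1| ≤ max N 1 := by
      rw [abs_of_pos (by linarith)]
      exact hn.le.trans (le_max_left _ _)
    have a3 := hT t a2
    have a4 := le_abs_self t
    have a5 := (le_max_left T 1).trans_lt ht
    linarith
  · rw [tendsto_atBot]
    intro N
    obtain ⟨T, hT⟩ := hbd (max (-N) 1)
    filter_upwards [eventually_lt_atBot (min (-T) 0)] with t ht
    have a1 : (e t : ℝ × ℝ).1 < -1 := (k1 t).2 (ht.trans_le (min_le_right _ _))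
    by_contra hn
    push Not at hn
    have a2 : |(e t : ℝ × ℝ).1| ≤ max (-N) 1 := by
      rw [abs_of_neg (by linarith)]
      refine le_trans ?_ (le_max_left _ _)
      linarith
    have a3 := hT t a2
    have a4 := neg_abs_le t
    have a5 := ht.trans_le (min_le_left (-T) 0)
    linarith

/-- MODULE Emb -/
theorem hEmb (h1 : StLin) : StEmb := by
  intro S p1 p2 m1 m2 e1 e2 u1 u2 hx hc I hI hφ
  obtain ⟨φ⟩ := hφ
  have hne : (φ.symm ⟨p2, m2⟩ : ℝ) ≠ φ.symm ⟨p1, m1⟩ := by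
    intro h
    have h' := φ.symm.injective (Subtype.ext h)
    have h2 : p2 = p1 := congrArg Subtype.val h'
    rw [h2, e1] at e2
    norm_num at e2
  rcases lt_or_gt_of_ne hne with h | h
  · exact core h1 S p1 p2 m1 m2 e1 e2 u1 u2 hx hc I hI φ h
  · let I' : Set ℝ := {x | -x ∈ I}
    have hI' : I'.OrdConnected := by
      refine ⟨fun x hx y hy z hz => ?_⟩
      exact hI.out hy hx ⟨neg_le_neg hz.2, neg_le_neg hz.1⟩
    let ψ : I' ≃ₜ I := (Homeomorph.neg ℝ).subtype (fun x => Iff.rfl)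
    have hψ : ∀ t : I, ((ψ.symm t : I') : ℝ) = -(t : ℝ) := by
      intro t
      have h2 : (ψ (ψ.symm t) : ℝ) = -((ψ.symm t : I') : ℝ) := rfl
      rw [Homeomorph.apply_symm_apply] at h2
      rw [h2, neg_neg]
    refine core h1 S p1 p2 m1 m2 e1 e2 u1 u2 hx hc I' hI' (ψ.trans φ) ?_
    show ((ψ.symm (φ.symm ⟨p2, m2⟩) : I') : ℝ) < ((ψ.symm (φ.symm ⟨p1, m1⟩) : I') : ℝ)
    rw [hψ, hψ]
    exact neg_lt_neg h

end Pool.Agent.Helper86.GB

end
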